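import Mathlib
import Pool.Agent.R229.NuclMain

/-! # The nucleus of a compact set need not be contained in its core

There are a connected complex surface `M` and a compact set `K ⊆ M` such that some point `ζ` of the
nucleus of `K` does not lie in the core of `K`. -/

set_option autoImplicit false

open scoped Manifold ContDiff Topology
open Set
open Pool.Agent.R229.Nucl

namespace Pool.Agent.Results.MP_60ed70_an.NucleusNeCore

theorem result : ∃ (n : ℕ) (_ : NeZero n) (M : Type) (_ : TopologicalSpace M) (_ : T2Space M)
    (_ : SecondCountableTopology M) (_ : ConnectedSpace M) (_ : ChartedSpace (E n) M)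
    (_ : IsManifold 𝓘(ℂ, E n) ω M) (K : Set M),
    IsCompact K ∧ ∃ ζ ∈ nucleus n K, ζ ∉ core (n := n) K := by
  refine ⟨2, inferInstance, MM, inferInstance, inferInstance, inferInstance, inferInstance,
    inferInstance, inferInstance, KK, isCompact_KK, Pool.Agent.H194R3.Cartan.Torus.proj Lat 0,
    ?_, not_in_core⟩
  rw [nucleus_KK, mem_KK]
  right
  exact ⟨by simp, 0, 0, by simp⟩

end Pool.Agent.Results.MP_60ed70_an.NucleusNeCore
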